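import Pool.Agent.helper38.Neg.CCrit

/-!
The CNF/DNF criterion for monotone real computations (all thresholds at once), with closure
systems.
-/

namespace Pool.Agent.helper83.Comb

open Pool.Agent.helper38.Neg

/-- Functions available after the list `L` has been computed: members, constants, variables. -/
def RAvail {ι : Type*} (L : List ((ι → Bool) → ℝ)) (f : (ι → Bool) → ℝ) : Prop :=
  f ∈ L ∨ (∃ b, f = fun _ => b) ∨ (∃ i, f = fun y => if y i = true then 1 else 0)

/-- Nondecreasing in both arguments. -/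
def Mono2 (φ : ℝ → ℝ → ℝ) : Prop := ∀ a a' b b', a ≤ a' → b ≤ b' → φ a b ≤ φ a' b'

/-- Monotone real straight line computations. -/
inductive RChain {ι : Type*} : List ((ι → Bool) → ℝ) → Prop
  | nil : RChain []
  | gate {L u v} (φ : ℝ → ℝ → ℝ) : RChain L → RAvail L u → RAvail L v → Mono2 φ →
      RChain ((fun y => φ (u y) (v y)) :: L)

lemma RAvail.mono {ι : Type*} {L L' : List ((ι → Bool) → ℝ)} (h : ∀ f ∈ L, f ∈ L')
    {f : (ι → Bool) → ℝ} (hf : RAvail L f) : RAvail L' f := by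
  rcases hf with hf | hf | hf
  · exact Or.inl (h f hf)
  · exact Or.inr (Or.inl hf)
  · exact Or.inr (Or.inr hf)

/-- Families of sets indexed by thresholds, any two of which are comparable. -/
def Nested {ι T : Type*} (Cl : T → Finset ι → Prop) : Prop :=
  ∀ c c', (∀ t, Cl t c → Cl t c') ∨ (∀ t, Cl t c' → Cl t c)

lemma nested_of_anti {ι : Type*} {Cl : ℝ → Finset ι → Prop}
    (h : ∀ t t' c, t ≤ t' → Cl t' c → Cl t c) : Nested Cl := by
  intro c c'
  by_contra hcon
  push Not at hcon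
  obtain ⟨⟨t, h1, h2⟩, ⟨t', h3, h4⟩⟩ := hcon
  rcases le_total t t' with htt | htt
  · exact h2 (h t t' c' htt h3)
  · exact h4 (h t' t c htt h1)

lemma nested_of_mono {ι : Type*} {Cl : ℝ → Finset ι → Prop}
    (h : ∀ t t' c, t ≤ t' → Cl t c → Cl t' c) : Nested Cl := by
  intro c c'
  by_contra hcon
  push Not at hcon
  obtain ⟨⟨t, h1, h2⟩, ⟨t', h3, h4⟩⟩ := hcon
  rcases le_total t t' with htt | htt
  · exact h4 (h t t' c htt h1)
  · exact h2 (h t' t c' htt h3)

section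

variable {ι σ τ : Type*} [DecidableEq ι] [DecidableEq σ] [DecidableEq τ] [Fintype ι]

omit [DecidableEq ι] in
/-- A largest set with a given property, in a nested family. -/
lemma nested_max {T : Type*} {Cl : T → Finset ι → Prop} (hn : Nested Cl)
    (A : Finset ι → Prop) (hA : ∃ c, A c) :
    ∃ c, A c ∧ ∀ c', A c' → ∀ t, Cl t c' → Cl t c := by
  classical
  have key : ∀ S : Finset (Finset ι), (∃ c ∈ S, A c) →
      ∃ c, A c ∧ ∀ c' ∈ S, A c' → ∀ t, Cl t c' → Cl t c := by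
    intro S
    induction S using Finset.induction_on with
    | empty => rintro ⟨c, hc, _⟩; simp at hc
    | insert d S hd ih =>
      rintro ⟨c, hc, hAc⟩
      by_cases hS : ∃ c ∈ S, A c
      · obtain ⟨c0, h0, h1⟩ := ih hS
        by_cases hAd : A d
        · rcases hn c0 d with h2 | h2
          · refine ⟨d, hAd, ?_⟩
            intro c' hc' hAc' t ht
            rcases Finset.mem_insert.1 hc' with rfl | hc'
            · exact ht
            · exact h2 t (h1 c' hc' hAc' t ht)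
          · refine ⟨c0, h0, ?_⟩
            intro c' hc' hAc' t ht
            rcases Finset.mem_insert.1 hc' with rfl | hc'
            · exact h2 t ht
            · exact h1 c' hc' hAc' t ht
        · refine ⟨c0, h0, ?_⟩
          intro c' hc' hAc' t ht
          rcases Finset.mem_insert.1 hc' with rfl | hc'
          · exact absurd hAc' hAd
          · exact h1 c' hc' hAc' t ht
      · have hcd : c = d := by
          rcases Finset.mem_insert.1 hc with rfl | hc
          · rfl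
          · exact absurd ⟨c, hc, hAc⟩ hS
        subst hcd
        refine ⟨c, hAc, ?_⟩
        intro c' hc' hAc' t ht
        rcases Finset.mem_insert.1 hc' with rfl | hc'
        · exact ht
        · exact absurd ⟨c', hc', hAc'⟩ hS
  obtain ⟨c, h1, h2⟩ := key Finset.univ (by
    obtain ⟨c, hc⟩ := hA
    exact ⟨c, Finset.mem_univ _, hc⟩)
  exact ⟨c, h1, fun c' hc' => h2 c' (Finset.mem_univ _) hc'⟩

/-- One transversal tree for all thresholds. -/
lemma rsys_tree {T : Type*} (S : Sys ι σ) {a : ℕ} (ha : 1 ≤ a) (Cl : T → Finset ι → Prop)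
    (hCl : ∀ t c, Cl t c → c.card ≤ a) (hn : Nested Cl) (r fuel : ℕ) :
    ∀ s0 : σ, r ≤ S.rk s0 + fuel → ∃ Nd R : Finset σ,
      (∀ M ∈ Nd, S.rk M < r) ∧ (∀ M ∈ R, r ≤ S.rk M) ∧ R.card ≤ a ^ fuel ∧
      ∀ (t : T) (x : ι → Bool), S.Compat x → AllOn (S.E s0) x → (∀ c, Cl t c → SomeOn c x) →
        (∃ M ∈ Nd, (∀ c, Cl t c → ∃ i ∈ c, i ∈ S.E M) ∧ AllOn (S.E M) x) ∨
          (∃ M ∈ R, AllOn (S.E M) x) := by
  classical
  induction fuel with
  | zero =>
    intro s0 hs0
    refine ⟨∅, {s0}, by simp, by simpa using hs0, by simp, ?_⟩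
    intro t x _ hx _
    exact Or.inr ⟨s0, by simp, hx⟩
  | succ fuel ih =>
    intro s0 hs0
    by_cases hr : r ≤ S.rk s0
    · refine ⟨∅, {s0}, by simp, by simpa using hr, ?_, ?_⟩
      · rw [Finset.card_singleton]; exact Nat.one_le_pow _ _ ha
      · intro t x _ hx _
        exact Or.inr ⟨s0, by simp, hx⟩
    by_cases hall : ∀ c, (∃ t, Cl t c) → ∃ i ∈ c, i ∈ S.E s0
    · refine ⟨{s0}, ∅, ?_, by simp, by simp, ?_⟩
      · intro M hM
        rw [Finset.mem_singleton] at hM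
        subst hM
        omega
      · intro t x _ hx _
        exact Or.inl ⟨s0, by simp, fun c hc => hall c ⟨t, hc⟩, hx⟩
    · push Not at hall
      obtain ⟨c, ⟨⟨t0, hct⟩, hcM⟩, hmax⟩ := nested_max hn
        (fun c => (∃ t, Cl t c) ∧ ∀ i ∈ c, i ∉ S.E s0) (by
          obtain ⟨c, h1, h2⟩ := hall
          exact ⟨c, h1, h2⟩)
      have hstep : ∀ i : ι, ∃ Nd R : Finset σ, i ∈ c →
        (∀ M ∈ Nd, S.rk M < r) ∧
        (∀ M ∈ R, r ≤ S.rk M) ∧ R.card ≤ a ^ fuel ∧
        ∀ (t : T) (x : ι → Bool), S.Compat x → AllOn (S.E (S.add s0 i)) x →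
          (∀ c, Cl t c → SomeOn c x) →
          (∃ M ∈ Nd, (∀ c, Cl t c → ∃ i ∈ c, i ∈ S.E M) ∧ AllOn (S.E M) x) ∨
          (∃ M ∈ R, AllOn (S.E M) x) := by
        intro i
        by_cases hi : i ∈ c
        · have h1 := S.rk_add s0 i (hcM i hi)
          obtain ⟨Nd, R, h⟩ := ih (S.add s0 i) (by omega)
          exact ⟨Nd, R, fun _ => h⟩
        · exact ⟨∅, ∅, fun h => absurd h hi⟩
      choose Nd R hDR using hstep
      refine ⟨insert s0 (c.biUnion Nd), c.biUnion R, ?_, ?_, ?_, ?_⟩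
      · intro M hM
        rcases Finset.mem_insert.1 hM with rfl | hM
        · omega
        · obtain ⟨i, hi, hM'⟩ := Finset.mem_biUnion.1 hM
          exact (hDR i hi).1 M hM'
      · intro M hM
        obtain ⟨i, hi, hM'⟩ := Finset.mem_biUnion.1 hM
        exact (hDR i hi).2.1 M hM'
      · calc (c.biUnion R).card ≤ ∑ i ∈ c, (R i).card := Finset.card_biUnion_le
          _ ≤ ∑ i ∈ c, a ^ fuel := Finset.sum_le_sum (fun i hi => (hDR i hi).2.2.1)
          _ = c.card * a ^ fuel := by simp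
          _ ≤ a * a ^ fuel := Nat.mul_le_mul_right _ (hCl t0 c hct)
          _ = a ^ (fuel + 1) := by ring
      · intro t x hcomp hx hsat
        by_cases htc : Cl t c
        · obtain ⟨i, hi, hxi⟩ := hsat c htc
          rcases (hDR i hi).2.2.2 t x hcomp (hcomp s0 i hx hxi) hsat with
            ⟨M, hM, hMx⟩ | ⟨M, hM, hMx⟩
          · exact Or.inl ⟨M, Finset.mem_insert_of_mem (Finset.mem_biUnion.2 ⟨i, hi, hM⟩), hMx⟩
          · exact Or.inr ⟨M, Finset.mem_biUnion.2 ⟨i, hi, hM⟩, hMx⟩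
        · refine Or.inl ⟨s0, Finset.mem_insert_self _ _, ?_, hx⟩
          intro c' hc'
          by_contra hno
          push Not at hno
          exact htc (hmax c' ⟨⟨t, hc'⟩, hno⟩ t hc')

/-- Approximation of all thresholds of `F` on the test inputs. -/
def RGood (P : Sys ι σ) (N : Sys ι τ) (r s : ℕ) (D : Finset σ) (E : Finset τ)
    (F : (ι → Bool) → ℝ) : Prop :=
  ∃ (Cl : ℝ → τ → Prop) (Dn : ℝ → σ → Prop), (∀ t c, Cl t c → N.rk c < s) ∧
    (∀ t M, Dn t M → P.rk M < r) ∧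
    (∀ t M c, Dn t M → Cl t c → ∃ i ∈ N.E c, i ∈ P.E M) ∧
    (∀ t x, P.Compat x → t ≤ F x →
      (∃ M, Dn t M ∧ AllOn (P.E M) x) ∨ ∃ M ∈ D, AllOn (P.E M) x) ∧
    (∀ t x, N.Compat (fun i => !(x i)) → (∀ c ∈ E, SomeOn (N.E c) x) →
      (∀ c, Cl t c → SomeOn (N.E c) x) → t ≤ F x)

omit [DecidableEq ι] [DecidableEq σ] [DecidableEq τ] [Fintype ι] in
lemma RGood.mono {P : Sys ι σ} {N : Sys ι τ} {r s : ℕ} {D D' : Finset σ} {E E' : Finset τ}
    (hD : D ⊆ D') (hE : E ⊆ E') {f : (ι → Bool) → ℝ} (h : RGood P N r s D E f) :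
    RGood P N r s D' E' f := by
  obtain ⟨Cl, Dn, h1, h2, h3, h4, h5⟩ := h
  refine ⟨Cl, Dn, h1, h2, h3, ?_, ?_⟩
  · intro t x hx hf
    rcases h4 t x hx hf with h | ⟨M, hM, hMx⟩
    · exact Or.inl h
    · exact Or.inr ⟨M, hD hM, hMx⟩
  · intro t x hx hx1 hx2
    exact h5 t x hx (fun c hc => hx1 c (hE hc)) hx2

omit [DecidableEq ι] [DecidableEq σ] [DecidableEq τ] [Fintype ι] in
lemma rgood_free {P : Sys ι σ} {N : Sys ι τ} {r s : ℕ}
    (hP : ∀ e, P.rk (P.add P.init e) < r) (hN : ∀ e, N.rk (N.add N.init e) < s)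
    (hP0 : P.rk P.init < r) (hN0 : N.rk N.init < s)
    {D : Finset σ} {E : Finset τ} {f : (ι → Bool) → ℝ} (hf : RAvail [] f) :
    RGood P N r s D E f := by
  rcases hf with hf | ⟨v, rfl⟩ | ⟨i, rfl⟩
  · simp at hf
  · refine ⟨fun t c => v < t ∧ c = N.init, fun t M => t ≤ v ∧ M = P.init, ?_, ?_, ?_, ?_, ?_⟩
    · rintro t c ⟨_, rfl⟩; exact hN0
    · rintro t c ⟨_, rfl⟩; exact hP0
    · rintro t M c ⟨h1, _⟩ ⟨h2, _⟩
      exact absurd h1 (not_le.2 h2)
    · intro t x _ hx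
      refine Or.inl ⟨P.init, ⟨hx, rfl⟩, ?_⟩
      rw [P.E_init]
      intro i hi; simp at hi
    · intro t x _ _ hx
      by_contra hcon
      obtain ⟨i, hi, _⟩ := hx N.init ⟨not_le.1 hcon, rfl⟩
      rw [N.E_init] at hi
      simp at hi
  · refine ⟨fun t c => (1 < t ∧ c = N.init) ∨ (0 < t ∧ c = N.add N.init i),
      fun t M => (t ≤ 0 ∧ M = P.init) ∨ (t ≤ 1 ∧ M = P.add P.init i), ?_, ?_, ?_, ?_, ?_⟩
    · rintro t c (⟨_, rfl⟩ | ⟨_, rfl⟩)
      · exact hN0
      · exact hN i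
    · rintro t c (⟨_, rfl⟩ | ⟨_, rfl⟩)
      · exact hP0
      · exact hP i
    · rintro t M c (⟨h1, rfl⟩ | ⟨h1, rfl⟩) (⟨h2, rfl⟩ | ⟨h2, rfl⟩)
      · linarith
      · linarith
      · linarith
      · exact ⟨i, N.mem_add i, P.mem_add i⟩
    · intro t x hx hxi
      change t ≤ (if x i = true then (1 : ℝ) else 0) at hxi
      by_cases hxi' : x i = true
      · rw [if_pos hxi'] at hxi
        exact Or.inl ⟨_, Or.inr ⟨hxi, rfl⟩, hx.single hxi'⟩
      · rw [if_neg hxi'] at hxi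
        refine Or.inl ⟨P.init, Or.inl ⟨hxi, rfl⟩, ?_⟩
        rw [P.E_init]
        intro i hi; simp at hi
    · intro t x hx _ hsat
      change t ≤ (if x i = true then (1 : ℝ) else 0)
      by_cases hxi : x i = true
      · rw [if_pos hxi]
        by_contra hcon
        obtain ⟨j, hj, _⟩ := hsat N.init (Or.inl ⟨not_le.1 hcon, rfl⟩)
        rw [N.E_init] at hj
        simp at hj
      · rw [if_neg hxi]
        by_contra hcon
        have hxi' : (fun i => !(x i)) i = true := by simpa using hxi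
        have h1 := hx.single hxi'
        obtain ⟨j, hj, hxj⟩ := hsat (N.add N.init i) (Or.inr ⟨not_le.1 hcon, rfl⟩)
        have := h1 j hj
        simp [hxj] at this

/-- The criterion for monotone real computations. -/
theorem rscrit (P : Sys ι σ) (N : Sys ι τ) {r s a b : ℕ} (ha : 1 ≤ a) (hb : 1 ≤ b)
    (hP : ∀ e, P.rk (P.add P.init e) < r) (hN : ∀ e, N.rk (N.add N.init e) < s)
    (hP0 : P.rk P.init < r) (hN0 : N.rk N.init < s)
    (hPb : ∀ M, P.rk M < r → (P.E M).card ≤ b) (hNa : ∀ c, N.rk c < s → (N.E c).card ≤ a)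
    {L : List ((ι → Bool) → ℝ)} (hL : RChain L) :
    ∃ (D : Finset σ) (E : Finset τ), (∀ M ∈ D, r ≤ P.rk M) ∧ D.card ≤ L.length * a ^ r ∧
      (∀ c ∈ E, s ≤ N.rk c) ∧ E.card ≤ L.length * (2 * b) ^ s ∧
      ∀ f, RAvail L f → RGood P N r s D E f := by
  induction hL with
  | nil =>
    exact ⟨∅, ∅, by simp, by simp, by simp, by simp,
      fun f hf => rgood_free hP hN hP0 hN0 hf⟩
  | @gate L u v φ hL hu hv hφ ih =>
    obtain ⟨D, E, h1, h2, h3, h4, h5⟩ := ih
    obtain ⟨Cu, Du, u1, u2, u3, u4, u5⟩ := h5 u hu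
    obtain ⟨Cv, Dv, v1, v2, v3, v4, v5⟩ := h5 v hv
    -- the short DNF
    let Δ : ℝ → Finset ι → Prop := fun t S => ∃ a' b' M M', t ≤ φ a' b' ∧ Du a' M ∧ Dv b' M' ∧
      S = P.E M ∪ P.E M'
    have hΔcard : ∀ t S, Δ t S → S.card ≤ 2 * b := by
      rintro t S ⟨a', b', M, M', _, hM, hM', rfl⟩
      have e1 := hPb M (u2 a' M hM)
      have e2 := hPb M' (v2 b' M' hM')
      have e3 := Finset.card_union_le (P.E M) (P.E M')
      omega
    have hΔn : Nested Δ := nested_of_anti (by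
      rintro t t' S htt ⟨a', b', M, M', hφ', hM, hM', rfl⟩
      exact ⟨a', b', M, M', htt.trans hφ', hM, hM', rfl⟩)
    obtain ⟨Nd, R, w1, w2, w3, w4⟩ := rsys_tree N (a := 2 * b) (by omega) Δ hΔcard hΔn s s N.init
      (by omega)
    let CF : ℝ → τ → Prop := fun t c => c ∈ Nd ∧ ∀ S, Δ t S → ∃ i ∈ S, i ∈ N.E c
    let CFs : ℝ → Finset ι → Prop := fun t S => ∃ c, CF t c ∧ S = N.E c
    have hCFcard : ∀ t S, CFs t S → S.card ≤ a := by
      rintro t S ⟨c, hc, rfl⟩
      exact hNa c (w1 c hc.1)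
    have hCFn : Nested CFs := nested_of_mono (by
      rintro t t' S htt ⟨c, ⟨hc1, hc2⟩, rfl⟩
      refine ⟨c, ⟨hc1, ?_⟩, rfl⟩
      rintro S ⟨a', b', M, M', hφ', hM, hM', rfl⟩
      exact hc2 _ ⟨a', b', M, M', htt.trans hφ', hM, hM', rfl⟩)
    obtain ⟨Nd2, R2, y1, y2, y3, y4⟩ := rsys_tree P ha CFs hCFcard hCFn r r P.init (by omega)
    let DF : ℝ → σ → Prop := fun t M => M ∈ Nd2 ∧ ∀ S, CFs t S → ∃ i ∈ S, i ∈ P.E M
    have hgood : RGood P N r s (D ∪ R2) (E ∪ R) (fun y => φ (u y) (v y)) := by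
      refine ⟨CF, DF, fun t c hc => w1 c hc.1, fun t M hM => y1 M hM.1, ?_, ?_, ?_⟩
      · intro t M c hM hc
        exact hM.2 _ ⟨c, hc, rfl⟩
      · intro t x hcomp hx
        rcases u4 (u x) x hcomp le_rfl with ⟨M1, hM1, hM1x⟩ | ⟨M, hM, hMx⟩
        · rcases v4 (v x) x hcomp le_rfl with ⟨M2, hM2, hM2x⟩ | ⟨M, hM, hMx⟩
          · have hΔ : Δ t (P.E M1 ∪ P.E M2) := ⟨u x, v x, M1, M2, hx, hM1, hM2, rfl⟩
            rcases y4 t x hcomp (by rw [P.E_init]; intro i hi; simp at hi) (by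
              rintro S ⟨c, hc, rfl⟩
              obtain ⟨i, hi1, hi2⟩ := hc.2 _ hΔ
              refine ⟨i, hi2, ?_⟩
              rcases Finset.mem_union.1 hi1 with hi | hi
              · exact hM1x i hi
              · exact hM2x i hi) with ⟨M, hM, hMh, hMx⟩ | ⟨M, hM, hMx⟩
            · exact Or.inl ⟨M, ⟨hM, hMh⟩, hMx⟩
            · exact Or.inr ⟨M, Finset.mem_union_right _ hM, hMx⟩
          · exact Or.inr ⟨M, Finset.mem_union_left _ hM, hMx⟩
        · exact Or.inr ⟨M, Finset.mem_union_left _ hM, hMx⟩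
      · intro t x hcomp hx1 hx2
        by_contra hcon
        have hE : ∀ c ∈ E, SomeOn (N.E c) x := fun c hc => hx1 c (Finset.mem_union_left _ hc)
        have hhit : ∀ S, Δ t S → SomeOn S (fun i => !(x i)) := by
          rintro S ⟨a', b', M, M', hφ', hM, hM', rfl⟩
          by_contra hno
          have hall : ∀ i ∈ P.E M ∪ P.E M', x i = true := by
            intro i hi
            by_contra hxi
            exact hno ⟨i, hi, by simpa using hxi⟩
          have e1 : a' ≤ u x := u5 a' x hcomp hE (fun c hc => by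
            obtain ⟨i, hi1, hi2⟩ := u3 a' M c hM hc
            exact ⟨i, hi1, hall i (Finset.mem_union_left _ hi2)⟩)
          have e2 : b' ≤ v x := v5 b' x hcomp hE (fun c hc => by
            obtain ⟨i, hi1, hi2⟩ := v3 b' M' c hM' hc
            exact ⟨i, hi1, hall i (Finset.mem_union_right _ hi2)⟩)
          exact hcon (hφ'.trans (hφ _ _ _ _ e1 e2))
        rcases w4 t (fun i => !(x i)) hcomp (by rw [N.E_init]; intro i hi; simp at hi) hhit with
          ⟨c, hc, hch, hcx⟩ | ⟨c, hc, hcx⟩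
        · obtain ⟨i, hi, hxi⟩ := hx2 c ⟨hc, hch⟩
          have := hcx i hi
          simp [hxi] at this
        · obtain ⟨i, hi, hxi⟩ := hx1 c (Finset.mem_union_right _ hc)
          have := hcx i hi
          simp [hxi] at this
    refine ⟨D ∪ R2, E ∪ R, ?_, ?_, ?_, ?_, ?_⟩
    · intro M hM
      rcases Finset.mem_union.1 hM with hM | hM
      · exact h1 M hM
      · exact y2 M hM
    · calc (D ∪ R2).card ≤ D.card + R2.card := Finset.card_union_le _ _
        _ ≤ L.length * a ^ r + a ^ r := Nat.add_le_add h2 y3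
        _ = _ := by rw [List.length_cons]; ring
    · intro c hc
      rcases Finset.mem_union.1 hc with hc | hc
      · exact h3 c hc
      · exact w2 c hc
    · calc (E ∪ R).card ≤ E.card + R.card := Finset.card_union_le _ _
        _ ≤ L.length * (2 * b) ^ s + (2 * b) ^ s := Nat.add_le_add h4 w3
        _ = _ := by rw [List.length_cons]; ring
    · intro f hf
      rcases hf with hf | hf | hf
      · rcases List.mem_cons.1 hf with rfl | hf
        · exact hgood
        · exact (h5 f (Or.inl hf)).mono Finset.subset_union_left Finset.subset_union_left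
      · exact rgood_free hP hN hP0 hN0 (Or.inr (Or.inl hf))
      · exact rgood_free hP hN hP0 hN0 (Or.inr (Or.inr hf))

/-- Final form: the OR of any number of thresholds of functions of a computation. -/
theorem rscrit' (P : Sys ι σ) (N : Sys ι τ) {r s a b : ℕ} (ha : 1 ≤ a) (hb : 1 ≤ b)
    (hP : ∀ e, P.rk (P.add P.init e) < r) (hN : ∀ e, N.rk (N.add N.init e) < s)
    (hP0 : P.rk P.init < r) (hN0 : N.rk N.init < s)
    (hPb : ∀ M, P.rk M < r → (P.E M).card ≤ b) (hNa : ∀ c, N.rk c < s → (N.E c).card ≤ a)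
    {L : List ((ι → Bool) → ℝ)} (hL : RChain L) {κ : Type*} (f : κ → (ι → Bool) → ℝ)
    (hf : ∀ k, RAvail L (f k)) (θ : κ → ℝ) :
    ∃ (D : Finset σ) (E : Finset τ), (∀ M ∈ D, r ≤ P.rk M) ∧ D.card ≤ L.length * a ^ r ∧
      (∀ c ∈ E, s ≤ N.rk c) ∧ E.card ≤ (L.length + 1) * (2 * b) ^ s ∧
      ((∀ x, N.Compat (fun i => !(x i)) → (∀ c ∈ E, SomeOn (N.E c) x) → ∃ k, θ k ≤ f k x) ∨
        ∃ I : Finset ι, I.card ≤ a ∧ ∀ x, P.Compat x → (∃ k, θ k ≤ f k x) →
          SomeOn I x ∨ ∃ M ∈ D, AllOn (P.E M) x) := by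
  classical
  obtain ⟨D, E, h1, h2, h3, h4, h5⟩ := rscrit P N ha hb hP hN hP0 hN0 hPb hNa hL
  choose Cl Dn g1 g2 g3 g4 g5 using fun k => h5 (f k) (hf k)
  let Δ : Unit → Finset ι → Prop := fun _ S => ∃ k M, Dn k (θ k) M ∧ S = P.E M
  have hΔcard : ∀ t S, Δ t S → S.card ≤ 2 * b := by
    rintro t S ⟨k, M, hM, rfl⟩
    have := hPb M (g2 k _ M hM)
    omega
  have hΔn : Nested Δ := by
    intro c c'
    by_cases h : Δ () c'
    · exact Or.inl fun _ _ => h
    · exact Or.inr fun _ h' => absurd h' h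
  obtain ⟨Nd, R, w1, w2, w3, w4⟩ := rsys_tree N (a := 2 * b) (by omega) Δ hΔcard hΔn s s N.init
    (by omega)
  refine ⟨D, E ∪ R, h1, h2, ?_, ?_, ?_⟩
  · intro c hc
    rcases Finset.mem_union.1 hc with hc | hc
    · exact h3 c hc
    · exact w2 c hc
  · calc (E ∪ R).card ≤ E.card + R.card := Finset.card_union_le _ _
      _ ≤ L.length * (2 * b) ^ s + (2 * b) ^ s := Nat.add_le_add h4 w3
      _ = _ := by ring
  by_cases hex : ∃ c ∈ Nd, ∀ S, Δ () S → ∃ i ∈ S, i ∈ N.E c
  · right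
    obtain ⟨c, hc, hch⟩ := hex
    refine ⟨N.E c, hNa c (w1 c hc), ?_⟩
    rintro x hcomp ⟨k, hk⟩
    rcases g4 k (θ k) x hcomp hk with ⟨M, hM, hMx⟩ | h
    · left
      obtain ⟨i, hi1, hi2⟩ := hch _ ⟨k, M, hM, rfl⟩
      exact ⟨i, hi2, hMx i hi1⟩
    · exact Or.inr h
  · left
    intro x hcomp hx1
    by_contra hcon
    push Not at hcon
    have hE : ∀ c ∈ E, SomeOn (N.E c) x := fun c hc => hx1 c (Finset.mem_union_left _ hc)
    have hhit : ∀ S, Δ () S → SomeOn S (fun i => !(x i)) := by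
      rintro S ⟨k, M, hM, rfl⟩
      by_contra hno
      have hall : ∀ i ∈ P.E M, x i = true := by
        intro i hi
        by_contra hxi
        exact hno ⟨i, hi, by simpa using hxi⟩
      have e1 := g5 k (θ k) x hcomp hE (fun c hc => by
        obtain ⟨i, hi1, hi2⟩ := g3 k _ M c hM hc
        exact ⟨i, hi1, hall i hi2⟩)
      exact absurd e1 (not_le.2 (hcon k))
    rcases w4 () (fun i => !(x i)) hcomp (by rw [N.E_init]; intro i hi; simp at hi) hhit with
      ⟨c, hc, hch, hcx⟩ | ⟨c, hc, hcx⟩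
    · exact hex ⟨c, hc, hch⟩
    · obtain ⟨i, hi, hxi⟩ := hx1 c (Finset.mem_union_right _ hc)
      have := hcx i hi
      simp [hxi] at this

end

end Pool.Agent.helper83.Comb
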