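import Pool.Agent.helper83.Comb.Defs
import Pool.Agent.helper83.Comb.RCrit

/-!
Walking up through negative blocks, for functions of the wires of a monotone real circuit.
-/

namespace Pool.Agent.helper83.Comb

open Pool.Agent.helper38.Neg

lemma val_mono {n s : ℕ} (C : RealCircuit n s) {x y : Fin n → Bool} (hxy : x ≤ y) :
    C.val x ≤ C.val y := by
  induction C with
  | nil =>
    intro i
    change (if x i = true then (1 : ℝ) else 0) ≤ if y i = true then (1 : ℝ) else 0
    have h := hxy i
    by_cases hx : x i = true
    · have hy : y i = true := by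
        by_contra hne
        have h2 : y i = false := by simpa using hne
        rw [hx, h2] at h
        exact absurd (h rfl) (by decide)
      rw [if_pos hx, if_pos hy]
    · rw [if_neg hx]; split_ifs <;> norm_num
  | @snoc s C φ hφ i j ih =>
    intro k
    refine Fin.lastCases ?_ (fun l => ?_) k
    · simp only [RealCircuit.val, Fin.snoc_last]
      exact hφ _ _ _ _ (ih i) (ih j)
    · simp only [RealCircuit.val, Fin.snoc_castSucc]
      exact ih l

lemma rchain_build {n s : ℕ} {ι : Type*} (C : RealCircuit n s)
    (X : (ι → Bool) → (Fin n → Bool))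
    (hX : ∀ i, (∃ b, ∀ y, X y i = b) ∨ ∃ k, ∀ y, X y i = y k) :
    ∃ L, RChain L ∧ L.length ≤ s ∧ ∀ k, RAvail L (fun y => C.val (X y) k) := by
  induction C with
  | nil =>
    refine ⟨[], RChain.nil, le_rfl, ?_⟩
    intro i
    rcases hX i with ⟨b, hb⟩ | ⟨k, hk⟩
    · refine Or.inr (Or.inl ⟨if b = true then 1 else 0, ?_⟩)
      funext y
      change (if X y i = true then (1 : ℝ) else 0) = _
      rw [hb y]
    · refine Or.inr (Or.inr ⟨k, ?_⟩)
      funext y
      change (if X y i = true then (1 : ℝ) else 0) = _
      rw [hk y]
  | @snoc s C φ hφ i j ih =>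
    obtain ⟨L, hL, hlen, hk⟩ := ih
    refine ⟨_, RChain.gate φ hL (hk i) (hk j) hφ, by simp; omega, ?_⟩
    intro k
    refine Fin.lastCases ?_ (fun l => ?_) k
    · left
      have : (fun y => (RealCircuit.snoc C φ hφ i j).val (X y) (Fin.last (n + s))) =
          fun y => φ (C.val (X y) i) (C.val (X y) j) := by
        funext y
        simp [RealCircuit.val]
      exact List.mem_cons.2 (Or.inl this)
    · have : (fun y => (RealCircuit.snoc C φ hφ i j).val (X y) (Fin.castSucc l)) =
          fun y => C.val (X y) l := by
        funext y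
        simp [RealCircuit.val]
      rw [show (fun y => (RealCircuit.snoc C φ hφ i j).val (X y)
        (Fin.castSucc l)) = _ from this]
      exact (hk l).mono (by intro f hf; exact List.mem_cons_of_mem _ hf)

/-- The walk. `G` places blocks `c 0, c 1, ...` into an input; `f` is the OR of `h` over the first
`K` blocks. If `f` is any function `g` of wires of a monotone real circuit, whose tuple takes at
most `K` values along chains, then `h` is an OR of thresholds of a monotone real computation. -/
theorem rwalk {n s K N : ℕ} {κ : Type*} [Finite κ] (C : RealCircuit n s)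
    (w : Fin N → Fin (n + s)) (g : (Fin N → ℝ) → Prop)
    (f : (Fin n → Bool) → Prop) (h : (κ → Bool) → Prop)
    (G : (ℕ → κ → Bool) → (Fin n → Bool))
    (hG : ∀ i, (∀ c, G c i = false) ∨ ∃ l k, ∀ c, G c i = c l k)
    (hf : ∀ c, f (G c) ↔ ∃ l < K, h (c l)) (h0 : ¬ h (fun _ => false))
    (hcomp : ∀ x, g (fun i => C.val x (w i)) ↔ f x) (hpat : C.TuplesLE w K) :
    ∃ L : List ((κ → Bool) → ℝ), RChain L ∧ L.length ≤ s ∧
      ∃ (F : Fin N → (κ → Bool) → ℝ) (θ : Fin N → ℝ), (∀ i, RAvail L (F i)) ∧
        ∀ y, (∃ i, θ i ≤ F i y) ↔ h y := by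
  classical
  set V : (Fin n → Bool) → (Fin N → ℝ) := fun x i => C.val x (w i) with hV
  have hVmono : Monotone V := fun x y hxy i => val_mono C hxy (w i)
  have hGmono : Monotone G := by
    intro c c' hcc i
    rcases hG i with h1 | ⟨l, k, h1⟩
    · rw [h1, h1]
    · rw [h1, h1]; exact hcc l k
  let Valid : (ℕ → κ → Bool) → ℕ → Prop := fun c j =>
    (∀ l < j, ¬ h (c l)) ∧ ∀ l, j ≤ l → c l = fun _ => false
  have hstuck : ∃ c j, j < K ∧ Valid c j ∧
      ∀ y, ¬ h y → V (G (Function.update c j y)) = V (G c) := by
    by_contra hcon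
    push Not at hcon
    have hch : ∀ c j, ∃ y, (j < K → Valid c j →
        ¬ h y ∧ V (G (Function.update c j y)) ≠ V (G c)) ∧
        (¬ (j < K ∧ Valid c j) → ¬ h y) := by
      intro c j
      by_cases hj : j < K ∧ Valid c j
      · obtain ⟨y, hy1, hy2⟩ := hcon c j hj.1 hj.2
        exact ⟨y, fun _ _ => ⟨hy1, hy2⟩, fun hh => absurd hj hh⟩
      · exact ⟨fun _ => false, fun h1 h2 => absurd ⟨h1, h2⟩ hj, fun _ => h0⟩
    choose Y hY1 hY2 using hch
    let c : ℕ → (ℕ → κ → Bool) := fun j => Nat.rec (fun _ _ => false)
      (fun j cj => Function.update cj j (Y cj j)) j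
    have hcs : ∀ j, c (j + 1) = Function.update (c j) j (Y (c j) j) := fun j => rfl
    have hYn : ∀ c j, ¬ h (Y c j) := by
      intro c j
      by_cases hj : j < K ∧ Valid c j
      · exact (hY1 c j hj.1 hj.2).1
      · exact hY2 c j hj
    have hval : ∀ j, Valid (c j) j := by
      intro j
      induction j with
      | zero => exact ⟨fun l hl => absurd hl (Nat.not_lt_zero _), fun l _ => rfl⟩
      | succ j ih =>
        rw [hcs]
        refine ⟨fun l hl => ?_, fun l hl => ?_⟩
        · by_cases hlj : l = j
          · subst hlj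
            rw [Function.update_self]
            exact hYn _ _
          · rw [Function.update_of_ne hlj]
            exact ih.1 l (by omega)
        · rw [Function.update_of_ne (by omega)]
          exact ih.2 l (by omega)
    have hcmono : Monotone c := by
      apply monotone_nat_of_le_succ
      intro j
      rw [hcs]
      intro l
      by_cases hlj : l = j
      · subst hlj
        rw [(hval l).2 l le_rfl, Function.update_self]
        intro k; simp
      · rw [Function.update_of_ne hlj]
    have hx := hpat (fun j => G (c j)) (hGmono.comp hcmono)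
    have hinj : Set.InjOn (fun j => V (G (c j))) (Set.Iic K) := by
      have key : ∀ i j, i < j → j ≤ K → V (G (c i)) ≠ V (G (c j)) := by
        intro i j hij hjK heq
        have h1 : V (G (c (i + 1))) = V (G (c i)) := by
          apply le_antisymm
          · rw [heq]; exact hVmono (hGmono (hcmono (show i + 1 ≤ j by omega)))
          · exact hVmono (hGmono (hcmono (Nat.le_succ i)))
        have h2 := (hY1 (c i) i (by omega) (hval i)).2
        rw [← hcs] at h2
        exact h2 h1
      intro i hi j hj hij
      rcases lt_trichotomy i j with hlt | heq | hlt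
      · exact absurd hij (key i j hlt hj)
      · exact heq
      · exact absurd hij.symm (key j i hlt hi)
    have h3 : ((fun j => V (G (c j))) '' Set.Iic K).encard = (K : ℕ∞) + 1 := by
      rw [hinj.encard_image]
      have : (Set.Iic K : Set ℕ) = ((Finset.range (K + 1) : Finset ℕ) : Set ℕ) := by
        ext; simp
      rw [this, Set.encard_coe_eq_coe_finsetCard, Finset.card_range]
      rfl
    have h4 : ((fun j => V (G (c j))) '' Set.Iic K).encard ≤ K :=
      (Set.encard_le_encard (Set.image_subset_range _ _)).trans hx
    rw [h3] at h4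
    have h5 : ((K + 1 : ℕ) : ℕ∞) ≤ (K : ℕ∞) := by exact_mod_cast h4
    have h6 : K + 1 ≤ K := by exact_mod_cast h5
    omega
  obtain ⟨c, j, hjK, hv, hst⟩ := hstuck
  let X : (κ → Bool) → (Fin n → Bool) := fun y => G (Function.update c j y)
  have hXf : ∀ y, f (X y) ↔ h y := by
    intro y
    simp only [X]
    rw [hf]
    constructor
    · rintro ⟨l, hl, hh⟩
      by_cases hlj : l = j
      · subst hlj
        rwa [Function.update_self] at hh
      · rw [Function.update_of_ne hlj] at hh
        rcases lt_or_ge l j with h1 | h1
        · exact absurd hh (hv.1 l h1)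
        · rw [hv.2 l h1] at hh
          exact absurd hh h0
    · intro hh
      exact ⟨j, hjK, by rwa [Function.update_self]⟩
  have hXav : ∀ i, (∃ b, ∀ y, X y i = b) ∨ ∃ k, ∀ y, X y i = y k := by
    intro i
    rcases hG i with h1 | ⟨l, k, h1⟩
    · exact Or.inl ⟨false, fun y => h1 _⟩
    · by_cases hlj : l = j
      · subst hlj
        refine Or.inr ⟨k, fun y => ?_⟩
        simp only [X]
        rw [h1, Function.update_self]
      · refine Or.inl ⟨c l k, fun y => ?_⟩
        simp only [X]
        rw [h1, Function.update_of_ne hlj]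
  obtain ⟨L, hL, hlen, hk⟩ := rchain_build C X hXav
  -- thresholds just above the base values
  have hthr : ∀ i : Fin N, ∃ θ : ℝ, ∀ y, θ ≤ C.val (X y) (w i) ↔ V (G c) i < C.val (X y) (w i) := by
    intro i
    have hfin : (Set.range fun y : κ → Bool => C.val (X y) (w i)).Finite := Set.finite_range _
    set S : Finset ℝ := hfin.toFinset.filter fun v => V (G c) i < v with hS
    rcases S.eq_empty_or_nonempty with he | hne
    · obtain ⟨b, hb⟩ := hfin.bddAbove
      refine ⟨b + 1, fun y => ?_⟩
      have h1 : C.val (X y) (w i) ≤ b := hb ⟨y, rfl⟩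
      constructor
      · intro h2; linarith
      · intro h2
        have : C.val (X y) (w i) ∈ S := by
          rw [hS, Finset.mem_filter]
          exact ⟨hfin.mem_toFinset.2 ⟨y, rfl⟩, h2⟩
        rw [he] at this
        simp at this
    · refine ⟨S.min' hne, fun y => ?_⟩
      constructor
      · intro h2
        have h3 := (Finset.mem_filter.1 (S.min'_mem hne)).2
        exact lt_of_lt_of_le h3 h2
      · intro h2
        apply Finset.min'_le
        rw [hS, Finset.mem_filter]
        exact ⟨hfin.mem_toFinset.2 ⟨y, rfl⟩, h2⟩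
  choose θ hθ using hthr
  refine ⟨L, hL, hlen, fun i y => C.val (X y) (w i), θ, fun i => hk (w i), ?_⟩
  intro y
  have hle : V (G c) ≤ V (X y) := by
    apply hVmono
    apply hGmono
    intro l
    by_cases hlj : l = j
    · subst hlj
      rw [hv.2 l le_rfl, Function.update_self]
      intro k; simp
    · rw [Function.update_of_ne hlj]
  have hbase : ¬ f (G c) := by
    rw [hf]
    rintro ⟨l, hl, hh⟩
    rcases lt_or_ge l j with h1 | h1
    · exact hv.1 l h1 hh
    · rw [hv.2 l h1] at hh
      exact h0 hh
  constructor
  · rintro ⟨i, hi⟩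
    by_contra hy
    have h1 := hst y hy
    have h2 := (hθ i y).1 hi
    have h3 : C.val (X y) (w i) = V (G c) i := congrFun h1 i
    rw [h3] at h2
    exact lt_irrefl _ h2
  · intro hy
    by_contra hno
    push Not at hno
    have heq : V (X y) = V (G c) := by
      funext i
      apply le_antisymm
      · by_contra hlt
        exact absurd ((hθ i y).2 (not_le.1 hlt)) (not_le.2 (hno i))
      · exact hle i
    apply hbase
    rw [← hcomp]
    have h2 : g (V (X y)) := (hcomp (X y)).2 ((hXf y).2 hy)
    rw [heq] at h2
    exact h2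

/-- `N` wires with values `0` and `1` take at most `N + 1` different tuples along a chain. -/
theorem tuplesLE_of_bool {n s N K : ℕ} (C : RealCircuit n s) (w : Fin N → Fin (n + s))
    (hN : N + 1 ≤ K) (h01 : ∀ x i, C.val x (w i) = 0 ∨ C.val x (w i) = 1) : C.TuplesLE w K := by
  classical
  intro x hx
  -- the number of ones determines the tuple
  let cnt : ℕ → ℕ := fun j => (Finset.univ.filter fun i : Fin N => C.val (x j) (w i) = 1).card
  have hmono : ∀ j k, j ≤ k → ∀ i, C.val (x j) (w i) = 1 → C.val (x k) (w i) = 1 := by
    intro j k hjk i hi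
    have h1 := val_mono C (hx hjk) (w i)
    rw [hi] at h1
    rcases h01 (x k) i with h2 | h2
    · rw [h2] at h1; norm_num at h1
    · exact h2
  have key : ∀ j k, j ≤ k → cnt j = cnt k →
      (fun i : Fin N => C.val (x j) (w i)) = fun i : Fin N => C.val (x k) (w i) := by
    intro j k hjk hc
    have hsub : (Finset.univ.filter fun i : Fin N => C.val (x j) (w i) = 1) ⊆
        Finset.univ.filter fun i : Fin N => C.val (x k) (w i) = 1 := by
      intro i hi
      rw [Finset.mem_filter] at hi ⊢
      exact ⟨hi.1, hmono j k hjk i hi.2⟩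
    have heq := Finset.eq_of_subset_of_card_le hsub (le_of_eq hc.symm)
    funext i
    have h1 : i ∈ (Finset.univ.filter fun i : Fin N => C.val (x j) (w i) = 1) ↔
        i ∈ Finset.univ.filter fun i : Fin N => C.val (x k) (w i) = 1 := by rw [heq]
    rw [Finset.mem_filter, Finset.mem_filter] at h1
    simp only [Finset.mem_univ, true_and] at h1
    rcases h01 (x j) i with h2 | h2
    · rcases h01 (x k) i with h3 | h3
      · rw [h2, h3]
      · rw [h1.2 h3, h3]
    · rw [h2, h1.1 h2]
  have hle : ∀ j, cnt j ≤ N := by
    intro j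
    calc cnt j ≤ (Finset.univ : Finset (Fin N)).card := Finset.card_filter_le _ _
      _ = N := by simp
  -- the map from tuples to counts is injective
  have h1 : (Set.range fun j => fun i : Fin N => C.val (x j) (w i)).encard ≤
      (Set.Iic N : Set ℕ).encard := by
    have hch : ∀ v ∈ (Set.range fun j => fun i : Fin N => C.val (x j) (w i)), ∃ j,
        (fun i : Fin N => C.val (x j) (w i)) = v := by
      rintro v ⟨j, rfl⟩
      exact ⟨j, rfl⟩
    choose! J hJ using hch
    refine Set.encard_le_encard_of_injOn (f := fun v => cnt (J v)) ?_ ?_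
    · intro v _
      exact hle _
    · intro v hv v' hv' hvv
      rw [← hJ v hv, ← hJ v' hv']
      rcases le_total (J v) (J v') with hjj | hjj
      · exact key _ _ hjj hvv
      · exact (key _ _ hjj hvv.symm).symm
  refine h1.trans ?_
  have : (Set.Iic N : Set ℕ) = ((Finset.range (N + 1) : Finset ℕ) : Set ℕ) := by
    ext a; simp
  rw [this, Set.encard_coe_eq_coe_finsetCard, Finset.card_range]
  exact_mod_cast hN

end Pool.Agent.helper83.Comb
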