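import Mathlib

/-!
Monotone real circuits.
-/

namespace Pool.Agent.helper83.Comb

/-- `RealCircuit n s`: monotone real circuits with `n` inputs and `s` gates. The wires are the `n`
inputs and then the `s` gates in their order; each gate applies to two earlier wires a function
`φ : ℝ → ℝ → ℝ` that is nondecreasing in both arguments (any such function, at no cost). -/
inductive RealCircuit (n : ℕ) : ℕ → Type
  | nil : RealCircuit n 0
  | snoc {s : ℕ} (C : RealCircuit n s) (φ : ℝ → ℝ → ℝ)
      (hφ : ∀ a a' b b' : ℝ, a ≤ a' → b ≤ b' → φ a b ≤ φ a' b') (i j : Fin (n + s)) :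
      RealCircuit n (s + 1)

/-- The values of all wires of a monotone real circuit on the input `x`; the inputs are read as
the real numbers `0` and `1`. -/
def RealCircuit.val {n : ℕ} : {s : ℕ} → RealCircuit n s → (Fin n → Bool) → (Fin (n + s) → ℝ)
  | _, RealCircuit.nil, x => fun i => if x i = true then 1 else 0
  | _, RealCircuit.snoc C φ _ i j, x =>
      Fin.snoc (α := fun _ => ℝ) (C.val x) (φ (C.val x i) (C.val x j))

/-- The tuple of values of the wires `w 0, ..., w (N - 1)` takes at most `K` different values
along every increasing sequence of inputs. -/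
def RealCircuit.TuplesLE {n s N : ℕ} (C : RealCircuit n s) (w : Fin N → Fin (n + s)) (K : ℕ) :
    Prop :=
  ∀ x : ℕ → (Fin n → Bool), Monotone x →
    (Set.range fun j => fun i : Fin N => C.val (x j) (w i)).encard ≤ K

end Pool.Agent.helper83.Comb
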