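import Pool.Agent.helper83.Comb.RCrit
import Pool.Agent.helper38.Neg.ClqBound

/-!
Monotone real lower bound for the clique function.
-/

namespace Pool.Agent.helper83.Comb

open Pool.Agent.helper38.Neg Finset

/-- Lower bound for monotone real computations of the clique function, as an OR of any number of
thresholds. -/
theorem rclq_lower {k w t : ℕ} (ht : 3 ≤ t) (hk : 4 * t ^ 2 + 1 ≤ k) (hw : 8 * t ^ 2 ≤ w)
    {L : List ((Edge (k * w) → Bool) → ℝ)} (hL : RChain L) {κ : Type*}
    (f : κ → (Edge (k * w) → Bool) → ℝ) (hf : ∀ i, RAvail L (f i)) (θ : κ → ℝ)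
    (hff : ∀ y, (∃ i, θ i ≤ f i y) ↔ ClqFn (k * w) k y) : 2 ^ t ≤ 2 * (L.length + 1) := by
  classical
  have ht2 : 1 ≤ t ^ 2 := Nat.one_le_pow _ _ (by omega)
  obtain ⟨D, E, hD1, hD2, hE1, hE2, hor⟩ := rscrit' (PSys (k * w)) (NSys (k * w))
    (r := t) (s := t) (a := 4 * t ^ 2) (b := t ^ 2) (by omega) ht2
    (by
      intro e
      change (insert e.1.1 (insert e.1.2 (∅ : Finset (Fin (k * w))))).card < t
      have h1 := Finset.card_insert_le e.1.1 (insert e.1.2 (∅ : Finset (Fin (k * w))))
      have h2 := Finset.card_insert_le e.1.2 (∅ : Finset (Fin (k * w)))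
      rw [card_empty] at h2
      omega)
    (by
      intro e
      change k * w - (univ.image (fun v => if id v = id e.1.1 then id e.1.2 else id v)).card < t
      have h1 : (univ : Finset (Fin (k * w))).erase e.1.1 ⊆
          univ.image (fun v => if id v = id e.1.1 then id e.1.2 else id v) := by
        intro v hv
        rw [mem_erase] at hv
        rw [mem_image]
        refine ⟨v, mem_univ _, ?_⟩
        simp [hv.1]
      have h2 := card_le_card h1
      rw [card_erase_of_mem (mem_univ _), card_univ, Fintype.card_fin] at h2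
      omega)
    (by change (∅ : Finset (Fin (k * w))).card < t; rw [card_empty]; omega)
    (by
      change k * w - (univ.image (id : Fin (k * w) → Fin (k * w))).card < t
      rw [image_id, card_univ, Fintype.card_fin]; omega)
    (by
      intro X hX
      have h1 : (inside X.1).card ≤ X.1.card ^ 2 := card_inside X.1
      have h2 : X.1.card < t := hX
      exact h1.trans (Nat.pow_le_pow_left h2.le 2))
    (by
      intro c hc
      have h1 := card_classes c
      have h2 : k * w - (univ.image c.1).card < t := hc
      exact h1.trans (Nat.mul_le_mul_left _ (Nat.pow_le_pow_left h2.le 2)))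
    hL f hf θ
  rcases hor with hE | ⟨I, hI, hor⟩
  · -- negative case
    set q := k - 1 with hq
    have hq0 : 0 < q := by omega
    have hcov : (univ : Finset (Fin (k * w) → Fin q)) ⊆ E.biUnion (fun c =>
        univ.filter fun χ : Fin (k * w) → Fin q =>
          AllOn (classes c.1) (fun e => !(mult χ e))) := by
      intro χ _
      by_contra hno
      have h1 : ∀ c ∈ E, SomeOn ((NSys (k * w)).E c) (mult χ) := by
        intro c hc
        by_contra hns
        apply hno
        refine mem_biUnion.2 ⟨c, hc, ?_⟩
        rw [mem_filter]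
        refine ⟨mem_univ _, ?_⟩
        intro e he
        by_contra hx
        exact hns ⟨e, he, by simpa using hx⟩
      have h2 := (hff _).1 (hE (mult χ) (nsys_compat χ) h1)
      obtain ⟨S, hS, hSc⟩ := h2
      have hinj : Set.InjOn χ S := by
        intro u hu v hv huv
        by_contra hne
        rcases lt_or_gt_of_ne hne with hlt | hgt
        · have := hSc ⟨(u, v), hlt⟩ hu hv
          simp [mult] at this
          exact this huv
        · have := hSc ⟨(v, u), hgt⟩ hv hu
          simp [mult] at this
          exact this huv.symm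
      have h3 := Finset.card_le_card_of_injOn χ (fun _ _ => mem_coe.2 (mem_univ _)) hinj
      rw [hS, card_univ, Fintype.card_fin] at h3
      omega
    have h1 := card_le_card hcov
    rw [card_univ, Fintype.card_fun, Fintype.card_fin, Fintype.card_fin] at h1
    have h2 : q ^ (k * w) * q ^ t ≤ E.card * q ^ (k * w) := by
      calc q ^ (k * w) * q ^ t
          ≤ (∑ c ∈ E, (univ.filter fun χ : Fin (k * w) → Fin q =>
              AllOn (classes c.1) (fun e => !(mult χ e))).card) * q ^ t :=
            Nat.mul_le_mul_right _ (h1.trans card_biUnion_le)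
        _ = ∑ c ∈ E, (univ.filter fun χ : Fin (k * w) → Fin q =>
              AllOn (classes c.1) (fun e => !(mult χ e))).card * q ^ t := by
            rw [Finset.sum_mul]
        _ ≤ ∑ c ∈ E, q ^ (k * w) := by
            apply Finset.sum_le_sum
            intro c hc
            refine le_trans ?_ (card_colourings (q := q) c)
            apply Nat.mul_le_mul_left
            exact Nat.pow_le_pow_right hq0 (hE1 c hc)
        _ = E.card * q ^ (k * w) := by simp
    have h3 : q ^ t ≤ E.card := by
      have h4 : q ^ (k * w) * q ^ t ≤ q ^ (k * w) * E.card := by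
        rw [mul_comm (q ^ (k * w)) E.card]; exact h2
      exact Nat.le_of_mul_le_mul_left h4 (Nat.pow_pos hq0)
    have h4 : 2 ^ t * (2 * t ^ 2) ^ t ≤ (L.length + 1) * (2 * t ^ 2) ^ t := by
      calc 2 ^ t * (2 * t ^ 2) ^ t = (2 * (2 * t ^ 2)) ^ t := by rw [mul_pow 2 (2 * t ^ 2)]
        _ ≤ q ^ t := Nat.pow_le_pow_left (by omega) _
        _ ≤ E.card := h3
        _ ≤ _ := hE2
    have h5 := Nat.le_of_mul_le_mul_right h4 (Nat.pow_pos (by omega))
    omega
  · -- positive case
    have hw0 : 0 < w := by omega
    have hcov : (univ : Finset (Fin k → Fin w)) ⊆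
        D.biUnion (fun M => univ.filter fun g : Fin k → Fin w => M.1 ⊆ trans g) ∪
        I.biUnion (fun e => univ.filter fun g : Fin k → Fin w =>
          ({e.1.1, e.1.2} : Finset (Fin (k * w))) ⊆ trans g) := by
      intro g _
      have h1 : ∃ i, θ i ≤ f i (clq (trans g)) := by
        rw [hff]
        exact ⟨trans g, card_trans g, fun e h1 h2 => by simp [clq, h1, h2]⟩
      rcases hor _ (psys_compat _) h1 with ⟨e, he, hx⟩ | ⟨M, hM, hMx⟩
      · refine mem_union_right _ (mem_biUnion.2 ⟨e, he, ?_⟩)
        rw [mem_filter]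
        refine ⟨mem_univ _, ?_⟩
        have hx' : e.1.1 ∈ trans g ∧ e.1.2 ∈ trans g := by simpa [clq] using hx
        intro v hv
        simp only [mem_insert, mem_singleton] at hv
        rcases hv with rfl | rfl
        · exact hx'.1
        · exact hx'.2
      · refine mem_union_left _ (mem_biUnion.2 ⟨M, hM, ?_⟩)
        rw [mem_filter]
        exact ⟨mem_univ _, subset_of_allOn M.2 hMx⟩
    have h1 := card_le_card hcov
    rw [card_univ, Fintype.card_fun, Fintype.card_fin, Fintype.card_fin] at h1
    have hD : (∑ M ∈ D, (univ.filter fun g : Fin k → Fin w => M.1 ⊆ trans g).card) * w ^ t ≤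
        D.card * w ^ k := by
      rw [Finset.sum_mul]
      calc _ ≤ ∑ M ∈ D, w ^ k := by
            apply Finset.sum_le_sum
            intro M hM
            refine le_trans ?_ (card_choice M.1)
            apply Nat.mul_le_mul_left
            exact Nat.pow_le_pow_right hw0 (hD1 M hM)
        _ = _ := by simp
    have hI' : (∑ e ∈ I, (univ.filter fun g : Fin k → Fin w =>
          ({e.1.1, e.1.2} : Finset (Fin (k * w))) ⊆ trans g).card) * w ^ 2 ≤
        I.card * w ^ k := by
      rw [Finset.sum_mul]
      calc _ ≤ ∑ e ∈ I, w ^ k := by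
            apply Finset.sum_le_sum
            intro e _
            have := card_choice (k := k) (w := w) ({e.1.1, e.1.2} : Finset (Fin (k * w)))
            rw [Finset.card_pair (ne_of_lt e.2)] at this
            exact this
        _ = _ := by simp
    set A := ∑ M ∈ D, (univ.filter fun g : Fin k → Fin w => M.1 ⊆ trans g).card with hA
    set B := ∑ e ∈ I, (univ.filter fun g : Fin k → Fin w =>
          ({e.1.1, e.1.2} : Finset (Fin (k * w))) ⊆ trans g).card with hB
    have h2 : w ^ k ≤ A + B :=
      h1.trans ((card_union_le _ _).trans (Nat.add_le_add card_biUnion_le card_biUnion_le))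
    have h3 : w ^ k * (2 * (w ^ t * w ^ 2)) ≤ w ^ k * (2 * (D.card * w ^ 2) + w ^ t * w ^ 2) := by
      have h4 : 2 * I.card ≤ w ^ 2 := by
        have h5 : 2 * I.card ≤ w := by omega
        calc 2 * I.card ≤ w := h5
          _ = w * 1 := by ring
          _ ≤ w * w := Nat.mul_le_mul_left _ hw0
          _ = w ^ 2 := by ring
      calc w ^ k * (2 * (w ^ t * w ^ 2)) ≤ (A + B) * (2 * (w ^ t * w ^ 2)) :=
            Nat.mul_le_mul_right _ h2
        _ = 2 * (A * w ^ t) * w ^ 2 + 2 * (B * w ^ 2) * w ^ t := by ring
        _ ≤ 2 * (D.card * w ^ k) * w ^ 2 + 2 * (I.card * w ^ k) * w ^ t := by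
            apply Nat.add_le_add
            · exact Nat.mul_le_mul_right _ (Nat.mul_le_mul_left _ hD)
            · exact Nat.mul_le_mul_right _ (Nat.mul_le_mul_left _ hI')
        _ = w ^ k * (2 * (D.card * w ^ 2) + (2 * I.card) * w ^ t) := by ring
        _ ≤ w ^ k * (2 * (D.card * w ^ 2) + w ^ 2 * w ^ t) := by
            apply Nat.mul_le_mul_left
            apply Nat.add_le_add_left
            exact Nat.mul_le_mul_right _ h4
        _ = _ := by ring
    have h4 := Nat.le_of_mul_le_mul_left h3 (Nat.pow_pos hw0)
    have h5 : w ^ t * w ^ 2 ≤ (2 * D.card) * w ^ 2 := by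
      have : (2 * D.card) * w ^ 2 = 2 * (D.card * w ^ 2) := by ring
      omega
    have h6 : w ^ t ≤ 2 * D.card := Nat.le_of_mul_le_mul_right h5 (Nat.pow_pos hw0)
    have h7 : 2 ^ t * (4 * t ^ 2) ^ t ≤ (2 * (L.length + 1)) * (4 * t ^ 2) ^ t := by
      calc 2 ^ t * (4 * t ^ 2) ^ t = (2 * (4 * t ^ 2)) ^ t := by rw [mul_pow 2 (4 * t ^ 2)]
        _ ≤ w ^ t := Nat.pow_le_pow_left (by omega) _
        _ ≤ 2 * D.card := h6
        _ ≤ 2 * (L.length * (4 * t ^ 2) ^ t) := Nat.mul_le_mul_left _ hD2
        _ ≤ 2 * ((L.length + 1) * (4 * t ^ 2) ^ t) :=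
            Nat.mul_le_mul_left _ (Nat.mul_le_mul_right _ (Nat.le_succ _))
        _ = _ := by ring
    exact Nat.le_of_mul_le_mul_right h7 (Nat.pow_pos (by omega))

end Pool.Agent.helper83.Comb
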